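import Mathlib

/-!
# Skew forcing irredundance on forests

For every finite forest `T`, all maximal `Z₋Ir`-sets and all inclusion-minimal skew forcing sets
have the same size, so `z₋ir(T) = Z₋(T) = upper Z₋(T) = Z₋IR(T)`.
-/

namespace Pool.Agent.Results.MP_aa1485_co.SkewForest

open SimpleGraph

universe u

variable {V : Type u}

/-- `Blue G S v`: the vertex `v` is eventually blue when the vertices of `S` start blue and the
skew forcing rule (a vertex `u` of either colour all of whose neighbours other than `w` are blue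
turns its neighbour `w` blue) is applied repeatedly. -/
inductive Blue (G : SimpleGraph V) (S : Set V) : V → Prop
  | initial (v : V) (hv : v ∈ S) : Blue G S v
  | force (u w : V) (huw : G.Adj u w) (h : ∀ x, G.Adj u x → x ≠ w → Blue G S x) : Blue G S w

/-- `S` is a skew forcing set of `G`: every vertex eventually turns blue. -/
def IsSkewForcing (G : SimpleGraph V) (S : Set V) : Prop := ∀ v, Blue G S v

/-- `F` is a skew fort of `G`: nonempty, and no vertex has exactly one neighbour in `F`. -/
def IsSkewFort (G : SimpleGraph V) (F : Set V) : Prop :=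
  F.Nonempty ∧ ∀ v, (G.neighborSet v ∩ F).ncard ≠ 1

/-- `S` is a `Z₋Ir`-set of `G`: every `u ∈ S` has a private skew fort relative to `S`. -/
def IsSkewIr (G : SimpleGraph V) (S : Set V) : Prop :=
  ∀ u ∈ S, ∃ F, IsSkewFort G F ∧ F ∩ S = {u}

/-- The skew forcing number `Z₋(G)`: the minimum size of a skew forcing set. -/
noncomputable def skewZ (G : SimpleGraph V) : ℕ :=
  sInf (Set.ncard '' {S | IsSkewForcing G S})

/-- The upper skew forcing number: the maximum size of an inclusion-minimal skew forcing set. -/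
noncomputable def upperSkewZ (G : SimpleGraph V) : ℕ :=
  sSup (Set.ncard '' {S | Minimal (IsSkewForcing G) S})

/-- `z₋ir(G)`: the minimum size of an inclusion-maximal `Z₋Ir`-set. -/
noncomputable def lowerSkewIr (G : SimpleGraph V) : ℕ :=
  sInf (Set.ncard '' {S | Maximal (IsSkewIr G) S})

/-- `Z₋IR(G)`: the maximum size of an inclusion-maximal `Z₋Ir`-set. -/
noncomputable def upperSkewIr (G : SimpleGraph V) : ℕ :=
  sSup (Set.ncard '' {S | Maximal (IsSkewIr G) S})

/-! ### Forcing sets are exactly the sets meeting every fort -/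

lemma not_blue_of_fort {G : SimpleGraph V} {S F : Set V} (hF : IsSkewFort G F)
    (hd : Disjoint F S) {v : V} (hv : Blue G S v) : v ∉ F := by
  induction hv with
  | initial v hv => exact fun h => Set.disjoint_left.mp hd h hv
  | force u w huw h ih =>
    intro hw
    apply hF.2 u
    rw [Set.ncard_eq_one]
    refine ⟨w, ?_⟩
    ext x
    simp only [Set.mem_inter_iff, mem_neighborSet, Set.mem_singleton_iff]
    constructor
    · rintro ⟨h1, h2⟩
      by_contra hx
      exact ih x h1 hx h2
    · rintro rfl
      exact ⟨huw, hw⟩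

lemma isSkewForcing_iff [Finite V] {G : SimpleGraph V} {S : Set V} :
    IsSkewForcing G S ↔ ∀ F, IsSkewFort G F → (F ∩ S).Nonempty := by
  constructor
  · intro h F hF
    by_contra hne
    have hd : Disjoint F S := by
      rw [Set.disjoint_iff_inter_eq_empty]
      exact Set.not_nonempty_iff_eq_empty.mp hne
    obtain ⟨v, hv⟩ := hF.1
    exact not_blue_of_fort hF hd (h v) hv
  · intro h
    by_contra hns
    unfold IsSkewForcing at hns
    push Not at hns
    obtain ⟨v, hv⟩ := hns
    obtain ⟨x, hx1, hx2⟩ := h {v | ¬ Blue G S v} ⟨⟨v, hv⟩, by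
      intro u hu
      rw [Set.ncard_eq_one] at hu
      obtain ⟨w, hw⟩ := hu
      have hw' : w ∈ G.neighborSet u ∩ {v | ¬ Blue G S v} := by rw [hw]; rfl
      apply hw'.2
      refine Blue.force u w hw'.1 ?_
      intro x hx hxw
      by_contra hb
      have : x ∈ G.neighborSet u ∩ {v | ¬ Blue G S v} := ⟨hx, hb⟩
      rw [hw] at this
      exact hxw this⟩
    exact hx1 (Blue.initial x hx2)

lemma minimal_forcing_maximal_ir [Finite V] {G : SimpleGraph V} {S : Set V}
    (h : Minimal (IsSkewForcing G) S) : Maximal (IsSkewIr G) S := by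
  refine ⟨?_, ?_⟩
  · intro u hu
    have hlt : S \ {u} < S := by
      refine ⟨Set.sdiff_subset, fun h' => ?_⟩
      exact (h' hu).2 rfl
    have hn : ¬ IsSkewForcing G (S \ {u}) := h.not_prop_of_lt hlt
    rw [isSkewForcing_iff] at hn
    push Not at hn
    obtain ⟨F, hF, hF2⟩ := hn
    refine ⟨F, hF, ?_⟩
    obtain ⟨x, hx⟩ := isSkewForcing_iff.mp h.prop F hF
    have key : ∀ y ∈ F ∩ S, y = u := by
      intro y hy
      by_contra hyu
      have : y ∈ F ∩ (S \ {u}) := ⟨hy.1, hy.2, hyu⟩
      rw [hF2] at this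
      exact this
    apply Set.eq_singleton_iff_unique_mem.mpr
    refine ⟨?_, key⟩
    have := key x hx
    rwa [this] at hx
  · intro T hT hST v hv
    by_contra hvS
    obtain ⟨F, hF, hF2⟩ := hT v hv
    obtain ⟨x, hx⟩ := isSkewForcing_iff.mp h.prop F hF
    have hx' : x ∈ F ∩ T := ⟨hx.1, hST hx.2⟩
    rw [hF2] at hx'
    rw [Set.mem_singleton_iff] at hx'
    rw [hx'] at hx
    exact hvS hx.2

/-! ### Alternating paths in forests -/

lemma no_alternating [Finite V] {G : SimpleGraph V} (hG : G.IsAcyclic) {X Y : Set V} {u : V}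
    (huX : u ∈ X) (hu0 : ∃ y ∈ Y, G.Adj u y)
    (hY : ∀ y ∈ Y, ∀ x ∈ X, G.Adj y x → ∃ x' ∈ X, G.Adj y x' ∧ x' ≠ x)
    (hX : ∀ x ∈ X, x ≠ u → ∀ y ∈ Y, G.Adj x y → ∃ y' ∈ Y, G.Adj x y' ∧ y' ≠ y) : False := by
  have main : ∀ n : ℕ, ∃ (x y : V) (h : G.Adj y x) (p : G.Walk x u), x ∈ X ∧ y ∈ Y ∧
      (Walk.cons h p).IsPath ∧ p.length = 2 * n := by
    intro n
    induction n with
    | zero =>
      obtain ⟨y, hy, hadj⟩ := hu0
      refine ⟨u, y, hadj.symm, Walk.nil, huX, hy, ?_, rfl⟩
      rw [Walk.cons_isPath_iff]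
      refine ⟨Walk.IsPath.nil, ?_⟩
      rw [Walk.support_nil, List.mem_singleton]
      exact hadj.ne'
    | succ n ih =>
      obtain ⟨x, y, h, p, hx, hy, hp, hlen⟩ := ih
      obtain ⟨x', hx', hadj', hne'⟩ := hY y hy x hx h
      have hns : x' ∉ (Walk.cons h p).support := by
        intro hmem
        have := hG.eq_snd_of_adj_start hp hadj' hmem
        rw [Walk.snd_cons] at this
        exact hne' this
      have hxu : x' ≠ u := by
        rintro rfl
        exact hns (Walk.end_mem_support _)
      have hp' : (Walk.cons hadj'.symm (Walk.cons h p)).IsPath := by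
        rw [Walk.cons_isPath_iff]
        exact ⟨hp, hns⟩
      obtain ⟨y', hy', hadj'', hne''⟩ := hX x' hx' hxu y hy hadj'.symm
      refine ⟨x', y', hadj''.symm, Walk.cons hadj'.symm (Walk.cons h p), hx', hy', ?_, ?_⟩
      · rw [Walk.cons_isPath_iff]
        refine ⟨hp', ?_⟩
        intro hmem
        have := hG.eq_snd_of_adj_start hp' hadj'' hmem
        rw [Walk.snd_cons] at this
        exact hne'' this
      · simp only [Walk.length_cons, hlen]
        ring
  haveI := Fintype.ofFinite V
  obtain ⟨x, y, h, p, -, -, hp, hlen⟩ := main (Fintype.card V)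
  have := hp.length_lt
  rw [Walk.length_cons, hlen] at this
  omega

/-! ### The null space over `ZMod 2` -/

open Classical in
/-- The adjacency operator over `ZMod 2`. -/
noncomputable def adjOp [Fintype V] (G : SimpleGraph V) :
    (V → ZMod 2) →ₗ[ZMod 2] (V → ZMod 2) where
  toFun x v := ∑ w, if G.Adj v w then x w else 0
  map_add' x y := by
    funext v
    simp only [Pi.add_apply, ← Finset.sum_add_distrib]
    refine Finset.sum_congr rfl fun w _ => ?_
    split_ifs <;> simp
  map_smul' c x := by
    funext v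
    simp only [Pi.smul_apply, smul_eq_mul, RingHom.id_apply, Finset.mul_sum]
    refine Finset.sum_congr rfl fun w _ => ?_
    split_ifs <;> simp

lemma ne_zero_iff (a : ZMod 2) : a ≠ 0 ↔ a = 1 := by
  revert a; decide

open Classical in
lemma isSkewFort_support [Fintype V] {G : SimpleGraph V} {x : V → ZMod 2} (hx : adjOp G x = 0)
    {u : V} (hu : x u = 1) : IsSkewFort G {v | x v = 1} := by
  refine ⟨⟨u, hu⟩, ?_⟩
  intro v hv
  rw [Set.ncard_eq_one] at hv
  obtain ⟨w, hw⟩ := hv
  have hw' : w ∈ G.neighborSet v ∩ {v | x v = 1} := by rw [hw]; rfl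
  have h0 : ∑ z, (if G.Adj v z then x z else 0) = 0 := congrFun hx v
  have h1 : ∑ z, (if G.Adj v z then x z else 0) = 1 := by
    rw [Finset.sum_eq_single w]
    · have h2 : G.Adj v w := hw'.1
      have h3 : x w = 1 := hw'.2
      rw [if_pos h2, h3]
    · intro b _ hb
      split_ifs with h
      · by_contra hne
        have : b ∈ G.neighborSet v ∩ {v | x v = 1} := ⟨h, (ne_zero_iff _).mp hne⟩
        rw [hw] at this
        exact hb this
      · rfl
    · intro h
      exact absurd (Finset.mem_univ _) h
  rw [h1] at h0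
  exact absurd h0 (by decide)

open Classical in
lemma exists_dual [Fintype V] (G : SimpleGraph V) (F : Set V) (u : V)
    (h : ∀ x : V → ZMod 2, adjOp G x = 0 → (∀ w, w ∉ F → x w = 0) → x u = 0) :
    ∃ y : V → ZMod 2, ∀ w ∈ F, ∑ v, (if G.Adj v w then y v else 0) = if w = u then 1 else 0 := by
  let R : (V → ZMod 2) →ₗ[ZMod 2] (V → ZMod 2) :=
    { toFun := fun x v => if v ∈ F then 0 else x v
      map_add' := by
        intro x y; funext v; simp only [Pi.add_apply]; split_ifs <;> simp
      map_smul' := by
        intro c x; funext v; simp only [Pi.smul_apply, RingHom.id_apply]; split_ifs <;> simp }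
  let f := (adjOp G).prod R
  have hmem : (LinearMap.proj u : (V → ZMod 2) →ₗ[ZMod 2] ZMod 2) ∈
      (LinearMap.ker f).dualAnnihilator := by
    rw [Submodule.mem_dualAnnihilator]
    intro x hx
    rw [LinearMap.mem_ker] at hx
    have h1 : adjOp G x = 0 := congrArg Prod.fst hx
    have h2 : R x = 0 := congrArg Prod.snd hx
    apply h x h1
    intro w hw
    have := congrFun h2 w
    simpa [R, hw] using this
  rw [← LinearMap.range_dualMap_eq_dualAnnihilator_ker] at hmem
  obtain ⟨φ, hφ⟩ := hmem
  refine ⟨fun v => φ (Pi.single v 1, 0), ?_⟩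
  intro w hw
  have h1 : φ (f (Pi.single w 1)) = (LinearMap.proj u : (V → ZMod 2) →ₗ[ZMod 2] ZMod 2)
      (Pi.single w 1) := by
    rw [← hφ]; rfl
  have h2 : R (Pi.single w 1) = 0 := by
    funext v
    by_cases hv : v ∈ F
    · simp [R, hv]
    · have : v ≠ w := by rintro rfl; exact hv hw
      simp [R, hv, this]
  have h3 : f (Pi.single w 1) = ∑ v, (if G.Adj v w then (Pi.single v 1, 0) else 0) := by
    apply Prod.ext
    · rw [Prod.fst_sum]
      funext z
      rw [Finset.sum_apply]
      show ∑ t, (if G.Adj z t then (Pi.single w 1 : V → ZMod 2) t else 0) = _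
      rw [Finset.sum_eq_single w, Finset.sum_eq_single z]
      · by_cases hzw : G.Adj z w
        · simp [hzw]
        · simp [hzw]
      · intro b _ hb
        split_ifs
        · simp [hb.symm]
        · rfl
      · intro h; exact absurd (Finset.mem_univ _) h
      · intro b _ hb
        split_ifs
        · simp [hb]
        · rfl
      · intro h; exact absurd (Finset.mem_univ _) h
    · rw [Prod.snd_sum]
      show R (Pi.single w 1) = _
      rw [h2]
      symm
      apply Finset.sum_eq_zero
      intro v _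
      split_ifs <;> rfl
  rw [h3, map_sum] at h1
  rw [LinearMap.proj_apply] at h1
  have h4 : (Pi.single w 1 : V → ZMod 2) u = if w = u then 1 else 0 := by
    rw [Pi.single_apply]
    simp [eq_comm]
  rw [h4] at h1
  rw [← h1]
  refine Finset.sum_congr rfl fun v _ => ?_
  split_ifs
  · rfl
  · simp

open Classical in
/-- In a forest, every vertex of a skew fort lies in the support of a null vector supported
inside the fort. -/
lemma exists_null_vector [Fintype V] {G : SimpleGraph V} (hG : G.IsAcyclic) {F : Set V}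
    (hF : IsSkewFort G F) {u : V} (hu : u ∈ F) :
    ∃ x : V → ZMod 2, adjOp G x = 0 ∧ x u = 1 ∧ ∀ w, w ∉ F → x w = 0 := by
  by_contra hcon
  push Not at hcon
  obtain ⟨y, hy⟩ := exists_dual G F u (by
    intro x hx hx2
    by_contra hne
    obtain ⟨w, hw1, hw2⟩ := hcon x hx ((ne_zero_iff _).mp hne)
    exact hw2 (hx2 w hw1))
  refine no_alternating hG (X := F) (Y := {v | y v ≠ 0}) hu ?_ ?_ ?_
  · have h1 := hy u hu
    rw [if_pos rfl] at h1
    by_contra hno
    push Not at hno
    have : ∑ v, (if G.Adj v u then y v else 0) = 0 := by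
      apply Finset.sum_eq_zero
      intro v _
      split_ifs with h
      · by_contra hne
        exact hno v hne h.symm
      · rfl
    rw [this] at h1
    exact absurd h1 (by decide)
  · intro v hv x hx hadj
    by_contra hno
    push Not at hno
    apply hF.2 v
    rw [Set.ncard_eq_one]
    refine ⟨x, ?_⟩
    ext z
    simp only [Set.mem_inter_iff, mem_neighborSet, Set.mem_singleton_iff]
    constructor
    · rintro ⟨h1, h2⟩
      exact hno z h2 h1
    · rintro rfl
      exact ⟨hadj, hx⟩
  · intro x hx hxu v hv hadj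
    by_contra hno
    push Not at hno
    have h1 := hy x hx
    rw [if_neg hxu] at h1
    rw [Finset.sum_eq_single v] at h1
    · rw [if_pos hadj.symm] at h1
      exact hv h1
    · intro b _ hb
      split_ifs with h
      · by_contra hne
        exact hb (hno b hne h.symm)
      · rfl
    · intro h; exact absurd (Finset.mem_univ _) h

lemma isSkewIr_iff [Fintype V] {G : SimpleGraph V} (hG : G.IsAcyclic) {S : Set V} :
    IsSkewIr G S ↔ ∀ u ∈ S, ∃ x : V → ZMod 2, adjOp G x = 0 ∧ x u = 1 ∧
      ∀ w ∈ S, w ≠ u → x w = 0 := by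
  constructor
  · intro h u hu
    obtain ⟨F, hF, hFS⟩ := h u hu
    have huF : u ∈ F := by
      have : u ∈ F ∩ S := by rw [hFS]; rfl
      exact this.1
    obtain ⟨x, hx1, hx2, hx3⟩ := exists_null_vector hG hF huF
    refine ⟨x, hx1, hx2, ?_⟩
    intro w hw hwu
    apply hx3
    intro hwF
    have : w ∈ F ∩ S := ⟨hwF, hw⟩
    rw [hFS] at this
    exact hwu this
  · intro h u hu
    obtain ⟨x, hx1, hx2, hx3⟩ := h u hu
    refine ⟨{v | x v = 1}, isSkewFort_support hx1 hx2, ?_⟩
    ext w
    simp only [Set.mem_inter_iff, Set.mem_setOf_eq, Set.mem_singleton_iff]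
    constructor
    · rintro ⟨h1, h2⟩
      by_contra hwu
      rw [hx3 w h2 hwu] at h1
      exact absurd h1 (by decide)
    · rintro rfl
      exact ⟨hx2, hu⟩

/-- In a forest, every maximal `Z₋Ir`-set has size the nullity of the adjacency matrix over the
field with two elements. -/
lemma ncard_of_maximal [Fintype V] {G : SimpleGraph V} (hG : G.IsAcyclic) {S : Set V}
    (hS : Maximal (IsSkewIr G) S) :
    S.ncard = Module.finrank (ZMod 2) (LinearMap.ker (adjOp G)) := by
  classical
  have hIr := (isSkewIr_iff hG).mp hS.prop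
  let r : LinearMap.ker (adjOp G) →ₗ[ZMod 2] (S → ZMod 2) :=
    (LinearMap.funLeft (ZMod 2) (ZMod 2) (Subtype.val : S → V)).comp
      (LinearMap.ker (adjOp G)).subtype
  have hr : ∀ (x : LinearMap.ker (adjOp G)) (s : S), r x s = x.1 s := fun x s => rfl
  have hinj : Function.Injective r := by
    rw [← LinearMap.ker_eq_bot, LinearMap.ker_eq_bot']
    intro x hx
    by_contra hne
    have hne' : ∃ v, x.1 v ≠ 0 := by
      by_contra hall
      push Not at hall
      exact hne (Subtype.ext (funext hall))
    obtain ⟨v, hv⟩ := hne'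
    have hv1 : x.1 v = 1 := (ne_zero_iff _).mp hv
    have hxS : ∀ s ∈ S, x.1 s = 0 := fun s hs => congrFun hx ⟨s, hs⟩
    have hxker : adjOp G x.1 = 0 := x.2
    have hvS : v ∉ S := by
      intro h
      exact hv (hxS v h)
    have hIns : IsSkewIr G (insert v S) := by
      rw [isSkewIr_iff hG]
      intro u hu
      rcases Set.mem_insert_iff.mp hu with rfl | hu
      · refine ⟨x.1, hxker, hv1, ?_⟩
        intro w hw hwu
        rcases Set.mem_insert_iff.mp hw with rfl | hw
        · exact absurd rfl hwu
        · exact hxS w hw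
      · obtain ⟨z, hz1, hz2, hz3⟩ := hIr u hu
        refine ⟨z - z v • x.1, ?_, ?_, ?_⟩
        · rw [map_sub, map_smul, hz1, hxker]; simp
        · simp [hz2, hxS u hu]
        · intro w hw hwu
          rcases Set.mem_insert_iff.mp hw with rfl | hw
          · simp [hv1]
          · simp [hz3 w hw hwu, hxS w hw]
    have hle := hS.2 hIns (Set.subset_insert v S)
    exact hvS (hle (Set.mem_insert v S))
  have hsurj : Function.Surjective r := by
    intro g
    choose z hz1 hz2 hz3 using fun s : S => hIr s.1 s.2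
    refine ⟨∑ s : S, g s • (⟨z s, hz1 s⟩ : LinearMap.ker (adjOp G)), ?_⟩
    funext t
    rw [hr]
    rw [Submodule.coe_sum, Finset.sum_apply, Finset.sum_eq_single t]
    · simp [hz2 t]
    · intro b _ hb
      have : z b t.1 = 0 := hz3 b t.1 t.2 (fun h => hb (Subtype.ext h.symm))
      simp [this]
    · intro h; exact absurd (Finset.mem_univ _) h
  have e := LinearEquiv.ofBijective r ⟨hinj, hsurj⟩
  rw [e.finrank_eq, Module.finrank_fintype_fun_eq_card, Set.ncard_eq_toFinset_card',
    Set.toFinset_card]

/-- **Skew forcing irredundance on forests**: for every finite forest `T`,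
`z₋ir(T) = Z₋(T) = upper Z₋(T) = Z₋IR(T)`. -/
theorem result {V : Type u} [Finite V] (T : SimpleGraph V) (hT : T.IsAcyclic) :
    lowerSkewIr T = skewZ T ∧ skewZ T = upperSkewZ T ∧ upperSkewZ T = upperSkewIr T := by
  haveI := Fintype.ofFinite V
  set k := Module.finrank (ZMod 2) (LinearMap.ker (adjOp T)) with hk
  have hmaxir : ∀ S, Maximal (IsSkewIr T) S → S.ncard = k := fun S hS => ncard_of_maximal hT hS
  have hminz : ∀ S, Minimal (IsSkewForcing T) S → S.ncard = k :=
    fun S hS => hmaxir S (minimal_forcing_maximal_ir hS)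
  have hforc : IsSkewForcing T Set.univ := fun v => Blue.initial v trivial
  obtain ⟨S0, -, hS0⟩ := exists_minimal_le_of_wellFoundedLT (IsSkewForcing T) Set.univ hforc
  have hS0' := minimal_forcing_maximal_ir hS0
  have h1 : Set.ncard '' {S | Maximal (IsSkewIr T) S} = {k} := by
    ext n
    simp only [Set.mem_image, Set.mem_setOf_eq, Set.mem_singleton_iff]
    constructor
    · rintro ⟨S, hS, rfl⟩; exact hmaxir S hS
    · rintro rfl; exact ⟨S0, hS0', hmaxir S0 hS0'⟩
  have h2 : Set.ncard '' {S | Minimal (IsSkewForcing T) S} = {k} := by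
    ext n
    simp only [Set.mem_image, Set.mem_setOf_eq, Set.mem_singleton_iff]
    constructor
    · rintro ⟨S, hS, rfl⟩; exact hminz S hS
    · rintro rfl; exact ⟨S0, hS0, hminz S0 hS0⟩
  have e1 : lowerSkewIr T = k := by
    unfold lowerSkewIr; rw [h1]; exact csInf_singleton k
  have e2 : upperSkewIr T = k := by
    unfold upperSkewIr; rw [h1]; exact csSup_singleton k
  have e3 : upperSkewZ T = k := by
    unfold upperSkewZ; rw [h2]; exact csSup_singleton k
  have e4 : skewZ T = k := by
    unfold skewZ
    apply le_antisymm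
    · exact Nat.sInf_le ⟨S0, hS0.prop, hminz S0 hS0⟩
    · obtain ⟨S, hS, hSn⟩ := Nat.sInf_mem
        (s := Set.ncard '' {S | IsSkewForcing T S}) ⟨_, S0, hS0.prop, rfl⟩
      rw [← hSn]
      obtain ⟨S1, hS1le, hS1⟩ := exists_minimal_le_of_wellFoundedLT (IsSkewForcing T) S hS
      rw [← hminz S1 hS1]
      exact Set.ncard_le_ncard hS1le
  rw [e1, e2, e3, e4]
  exact ⟨rfl, rfl, rfl⟩

end Pool.Agent.Results.MP_aa1485_co.SkewForest
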